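import Mathlib

/-!
# Category lemmas for the space of `MP_713d40_gt`

`Data Ω` is a map `ρ` from the reals onto (the positive elements of) a well-ordered set `Ω` of type
`ω₁` all of whose fibres are nonmeagre in every open set.
-/

open Set Topology Filter

namespace Pool.Agent.R583.SC

structure Data (Ω : Type) [LinearOrder Ω] where
  ρ : ℝ → Ω
  bdd : ∀ C : Set Ω, C.Countable → ∃ b, ∀ c ∈ C, c < b
  ctbl : ∀ a : Ω, (Iio a).Countable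
  pos : ∀ x, ∃ γ, γ < ρ x
  nm : ∀ α, (∃ γ, γ < α) → ∀ O : Set ℝ, IsOpen O → O.Nonempty →
    ∀ R ∈ residual ℝ, ∃ x ∈ O ∩ R, ρ x = α

variable {Ω : Type} [LinearOrder Ω] [WellFoundedLT Ω]

omit [WellFoundedLT Ω] in
theorem Data.ctbl' (D : Data Ω) (a : Ω) : (Iic a).Countable := by
  have : Iic a = insert a (Iio a) := by
    ext x; simp [le_iff_eq_or_lt]
  rw [this]
  exact (D.ctbl a).insert a

omit [WellFoundedLT Ω] in
theorem Data.bdd_range (D : Data Ω) {ι : Type*} [Countable ι] (f : ι → Ω) :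
    ∃ b, ∀ i, f i < b := by
  obtain ⟨b, hb⟩ := D.bdd (range f) (countable_range f)
  exact ⟨b, fun i => hb _ ⟨i, rfl⟩⟩

/-- The pressing down argument. -/
theorem press (D : Data Ω) (φ : ℝ → Ω) (hφ : ∀ a, φ a < D.ρ a) (κ : ℝ → ℝ) (hκ : ∀ a, 0 < κ a)
    (O : Set ℝ) (hO : IsOpen O) (hne : O.Nonempty) :
    ∃ O₁ ⊆ O, IsOpen O₁ ∧ O₁.Nonempty ∧ ∃ (γ : Ω) (k : ℕ), ∀ θ : Ω, ∃ α, θ ≤ α ∧
      O₁ ⊆ closure {a | D.ρ a = α ∧ φ a ≤ γ ∧ 1 / ((k : ℝ) + 1) ≤ κ a} := by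
  classical
  by_contra hcon
  push Not at hcon
  have h1 : ∀ (B : Set ℝ) (γ : Ω) (k : ℕ), ∃ θ, (B ⊆ O ∧ IsOpen B ∧ B.Nonempty) →
      ∀ α, θ ≤ α → ¬ B ⊆ closure {a | D.ρ a = α ∧ φ a ≤ γ ∧ 1 / ((k : ℝ) + 1) ≤ κ a} := by
    intro B γ k
    by_cases h : B ⊆ O ∧ IsOpen B ∧ B.Nonempty
    · obtain ⟨θ, hθ⟩ := hcon B h.1 h.2.1 h.2.2 γ k
      exact ⟨θ, fun _ => hθ⟩
    · exact ⟨D.ρ 0, fun h' => absurd h' h⟩
  choose θ hθ using h1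
  set 𝓑 := TopologicalSpace.countableBasis ℝ with h𝓑
  have h𝓑c : 𝓑.Countable := TopologicalSpace.countable_countableBasis ℝ
  have h𝓑b : TopologicalSpace.IsTopologicalBasis 𝓑 := TopologicalSpace.isBasis_countableBasis ℝ
  have nxt : ∀ x, ∃ y, x < y ∧ ∀ γ ≤ x, ∀ B ∈ 𝓑, ∀ k, θ B γ k ≤ y := by
    intro x
    obtain ⟨b, hb⟩ := D.bdd ({x} ∪ (⋃ γ ∈ Iic x, ⋃ B ∈ 𝓑, range (θ B γ))) (by
      refine (countable_singleton x).union ?_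
      refine (D.ctbl' x).biUnion (fun γ _ => ?_)
      exact h𝓑c.biUnion (fun B _ => countable_range _))
    refine ⟨b, hb x (by simp), fun γ hγ B hB k => (hb _ (Or.inr ?_)).le⟩
    simp only [mem_iUnion]
    exact ⟨γ, hγ, B, hB, k, rfl⟩
  choose nx hnx1 hnx2 using nxt
  let s : ℕ → Ω := fun n => nx^[n] (D.ρ 0)
  have hs : ∀ n, s (n + 1) = nx (s n) := fun n => Function.iterate_succ_apply' nx n _
  obtain ⟨u, hu⟩ := D.bdd_range s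
  obtain ⟨α, hα1, hα2⟩ : ∃ α, (∀ n, s n ≤ α) ∧ ∀ γ, γ < α → ∃ n, γ < s n := by
    have hne' : {x | ∀ n, s n ≤ x}.Nonempty := ⟨u, fun n => (hu n).le⟩
    refine ⟨(wellFounded_lt (α := Ω)).min _ hne', (wellFounded_lt (α := Ω)).min_mem _ hne', ?_⟩
    intro γ hγ
    by_contra hc
    push Not at hc
    exact (wellFounded_lt (α := Ω)).not_lt_min {x | ∀ n, s n ≤ x} hc hγ
  have hpos : ∃ γ, γ < α := ⟨s 0, lt_of_lt_of_le (by rw [hs 0]; exact hnx1 _) (hα1 1)⟩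
  let E : Ω → ℕ → Set ℝ := fun γ k => {a | D.ρ a = α ∧ φ a ≤ γ ∧ 1 / ((k : ℝ) + 1) ≤ κ a} ∩ O
  have hE : ∀ γ < α, ∀ k, IsNowhereDense (E γ k) := by
    intro γ hγ k
    by_contra hnd
    have hI : (interior (closure (E γ k))).Nonempty := by
      rw [nonempty_iff_ne_empty]; exact hnd
    have hIO : (interior (closure (E γ k)) ∩ E γ k).Nonempty := by
      obtain ⟨x, hx⟩ := hI
      have := interior_subset hx
      rw [mem_closure_iff] at this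
      exact this _ isOpen_interior hx
    obtain ⟨x, hx1, hx2⟩ := hIO
    obtain ⟨B, hB, hxB, hBs⟩ := h𝓑b.exists_subset_of_mem_open
      (⟨hx1, hx2.2⟩ : x ∈ interior (closure (E γ k)) ∩ O) (isOpen_interior.inter hO)
    obtain ⟨n, hn⟩ := hα2 γ hγ
    have h2 : θ B γ k ≤ α := by
      refine le_trans (hnx2 (s n) γ hn.le B hB k) ?_
      rw [← hs n]; exact hα1 _
    refine hθ B γ k ⟨fun y hy => (hBs hy).2, h𝓑b.isOpen hB, ⟨x, hxB⟩⟩ α h2 ?_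
    intro y hy
    exact closure_mono inter_subset_left (interior_subset (hBs hy).1)
  have hM : IsMeagre (⋃ γ ∈ Iio α, ⋃ k, E γ k) := by
    haveI : Countable (Iio α) := (D.ctbl α).to_subtype
    rw [biUnion_eq_iUnion]
    refine isMeagre_iUnion (fun γ => isMeagre_iUnion (fun k => (hE γ.1 γ.2 k).isMeagre))
  obtain ⟨x, ⟨hxO, hxR⟩, hxα⟩ := D.nm α hpos O hO hne _ hM
  apply hxR
  obtain ⟨k, hk⟩ := exists_nat_one_div_lt (hκ x)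
  simp only [mem_iUnion]
  exact ⟨φ x, by rw [← hxα]; exact hφ x, k, ⟨hxα, le_rfl, hk.le⟩, hxO⟩

/-- Continuity of `F` at the diagonal points of the plane. -/
def DiagCont (D : Data Ω) (F : ℝ → ℝ → ℝ) : Prop :=
  ∀ ε > 0, ∀ z, ∃ δ > 0, ∃ γ < D.ρ z,
    (∀ b, |z - b| < δ → γ < D.ρ b → D.ρ b ≤ D.ρ z → |F z b - F z z| < ε) ∧
    (∀ a, |a - z| < δ → |F a z - F z z| < ε)

theorem local_osc (D : Data Ω) (F : ℝ → ℝ → ℝ) (hF : DiagCont D F) (O : Set ℝ) (hO : IsOpen O)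
    (hne : O.Nonempty) (ε : ℝ) (hε : 0 < ε) :
    ∃ γ : Ω, ∃ O' ⊆ O, IsOpen O' ∧ O'.Nonempty ∧ ∃ c, ∀ b ∈ O', γ < D.ρ b →
      |F b b - c| ≤ ε := by
  have hε4 : 0 < ε / 4 := by linarith
  choose κ hκ φ hφ h1 h2 using hF (ε / 4) hε4
  obtain ⟨O₁, hO₁s, hO₁o, hO₁n, γ, k, hk⟩ := press D φ hφ κ hκ O hO hne
  obtain ⟨u, hu⟩ := D.bdd {γ} (countable_singleton γ)
  have huγ : γ < u := hu γ rfl
  obtain ⟨b₀, ⟨hb₀, -⟩, hb₀u⟩ := D.nm u ⟨γ, huγ⟩ O₁ hO₁o hO₁n univ univ_mem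
  have hk0 : (0 : ℝ) < 1 / ((k : ℝ) + 1) := by positivity
  set δ := min (1 / ((k : ℝ) + 1)) (κ b₀) with hδ
  have hδ0 : 0 < δ := lt_min hk0 (hκ b₀)
  refine ⟨γ, O₁ ∩ Metric.ball b₀ δ, inter_subset_left.trans hO₁s, hO₁o.inter Metric.isOpen_ball,
    ⟨b₀, hb₀, Metric.mem_ball_self hδ0⟩, F b₀ b₀, ?_⟩
  rintro b ⟨hb1, hb2⟩ hbγ
  obtain ⟨α, hα, hcl⟩ := hk (max (D.ρ b) (D.ρ b₀))
  have hbcl := hcl hb1
  rw [mem_closure_iff] at hbcl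
  obtain ⟨a, ⟨⟨haO, haδ⟩, hab⟩, haα, haγ, haκ⟩ := hbcl
    ((O₁ ∩ Metric.ball b₀ δ) ∩ Metric.ball b (min (κ b) (1 / ((k : ℝ) + 1))))
    ((hO₁o.inter Metric.isOpen_ball).inter Metric.isOpen_ball)
    ⟨⟨hb1, hb2⟩, Metric.mem_ball_self (lt_min (hκ b) hk0)⟩
  rw [Metric.mem_ball, Real.dist_eq] at haδ hab
  have hab1 : |a - b| < κ b := lt_of_lt_of_le hab (min_le_left _ _)
  have hab2 : |a - b| < κ a := lt_of_lt_of_le hab ((min_le_right _ _).trans haκ)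
  have hab3 : |a - b₀| < κ b₀ := lt_of_lt_of_le haδ (min_le_right _ _)
  have hab4 : |a - b₀| < κ a := lt_of_lt_of_le haδ ((min_le_left _ _).trans haκ)
  have e1 := h1 a b hab2 (lt_of_le_of_lt haγ hbγ) (by rw [haα]; exact (le_max_left _ _).trans hα)
  have e2 := h2 b a hab1
  have e3 := h1 a b₀ hab4 (lt_of_le_of_lt haγ (by rw [hb₀u]; exact huγ))
    (by rw [haα]; exact (le_max_right _ _).trans hα)
  have e4 := h2 b₀ a hab3
  rw [abs_lt] at e1 e2 e3 e4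
  rw [abs_le]
  constructor <;> linarith [e1.1, e1.2, e2.1, e2.2, e3.1, e3.2, e4.1, e4.2]

/-- `f` has small oscillation, modulo `R` and `{ρ ≤ γ}`. -/
def Q (D : Data Ω) (γ : Ω) (R : Set ℝ) (f : ℝ → ℝ) : Prop :=
  ∀ O : Set ℝ, IsOpen O → O.Nonempty → ∀ ε > 0, ∃ O' ⊆ O, IsOpen O' ∧ O'.Nonempty ∧
    ∃ c, ∀ b ∈ O', b ∈ R → γ < D.ρ b → |f b - c| ≤ ε

omit [WellFoundedLT Ω] in
theorem Q.mono {D : Data Ω} {γ γ' : Ω} {R R' : Set ℝ} {f : ℝ → ℝ} (h : Q D γ R f) (hγ : γ ≤ γ')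
    (hR : R' ⊆ R) : Q D γ' R' f := by
  intro O hO hne ε hε
  obtain ⟨O', h1, h2, h3, c, hc⟩ := h O hO hne ε hε
  exact ⟨O', h1, h2, h3, c, fun b hb hbR hbγ => hc b hb (hR hbR) (lt_of_le_of_lt hγ hbγ)⟩

theorem exists_Q (D : Data Ω) (F : ℝ → ℝ → ℝ) (hF : DiagCont D F) :
    ∃ γ, Q D γ univ (fun b => F b b) := by
  classical
  set 𝓑 := TopologicalSpace.countableBasis ℝ with h𝓑
  have h𝓑c : 𝓑.Countable := TopologicalSpace.countable_countableBasis ℝ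
  have h𝓑b : TopologicalSpace.IsTopologicalBasis 𝓑 := TopologicalSpace.isBasis_countableBasis ℝ
  haveI : Countable 𝓑 := h𝓑c.to_subtype
  have h1 : ∀ p : 𝓑 × ℕ, ∃ γ : Ω, p.1.1.Nonempty → ∃ O' ⊆ p.1.1, IsOpen O' ∧ O'.Nonempty ∧
      ∃ c, ∀ b ∈ O', γ < D.ρ b → |F b b - c| ≤ 1 / ((p.2 : ℝ) + 1) := by
    rintro ⟨B, m⟩
    by_cases hB : B.1.Nonempty
    · obtain ⟨γ, h⟩ := local_osc D F hF B.1 (h𝓑b.isOpen B.2) hB (1 / ((m : ℝ) + 1))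
        (by positivity)
      exact ⟨γ, fun _ => h⟩
    · exact ⟨D.ρ 0, fun h => absurd h hB⟩
  choose γ hγ using h1
  obtain ⟨u, hu⟩ := D.bdd_range γ
  refine ⟨u, ?_⟩
  intro O hO hne ε hε
  obtain ⟨x, hx⟩ := hne
  obtain ⟨B, hB, hxB, hBs⟩ := h𝓑b.exists_subset_of_mem_open hx hO
  obtain ⟨m, hm⟩ := exists_nat_one_div_lt hε
  obtain ⟨O', h1, h2, h3, c, hc⟩ := hγ (⟨B, hB⟩, m) ⟨x, hxB⟩
  exact ⟨O', h1.trans hBs, h2, h3, c, fun b hb _ hbγ =>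
    (hc b hb (lt_trans (hu _) hbγ)).trans hm.le⟩

theorem Q_lim (D : Data Ω) (γ : Ω) (f : ℕ → ℝ → ℝ) (g : ℝ → ℝ)
    (hf : ∀ l, ∃ R ∈ residual ℝ, Q D γ R (f l))
    (hg : ∀ b, Tendsto (fun l => f l b) atTop (𝓝 (g b))) :
    ∃ R ∈ residual ℝ, Q D γ R g := by
  classical
  choose R₀ hR₀ hQ₀ using hf
  set R := ⋂ l, R₀ l with hRdef
  have hR : R ∈ residual ℝ := countable_iInter_mem.2 hR₀
  have hQ : ∀ l, Q D γ R (f l) := fun l => (hQ₀ l).mono le_rfl (iInter_subset _ l)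
  let U : ℕ → ℕ → Set ℝ := fun l m =>
    ⋃₀ {O' | IsOpen O' ∧ ∃ c, ∀ b ∈ O', b ∈ R → γ < D.ρ b → |f l b - c| ≤ 1 / ((m : ℝ) + 1)}
  have hUo : ∀ l m, IsOpen (U l m) := fun l m => isOpen_sUnion (fun O' h => h.1)
  have hUd : ∀ l m, Dense (U l m) := by
    intro l m
    rw [dense_iff_inter_open]
    intro O hO hne
    obtain ⟨O', h1, h2, ⟨x, hx⟩, c, hc⟩ := hQ l O hO hne (1 / ((m : ℝ) + 1)) (by positivity)
    exact ⟨x, h1 hx, O', ⟨h2, c, hc⟩, hx⟩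
  set R' := R ∩ ⋂ l, ⋂ m, U l m with hR'def
  have hR' : R' ∈ residual ℝ := by
    refine inter_mem hR (countable_iInter_mem.2 fun l => countable_iInter_mem.2 fun m => ?_)
    exact residual_of_dense_open (hUo l m) (hUd l m)
  refine ⟨R', hR', ?_⟩
  intro O hO hne ε hε
  -- local continuity
  have hloc : ∀ l, ∀ b ∈ R', ∀ δ > 0, ∃ O', IsOpen O' ∧ b ∈ O' ∧
      ∃ c, ∀ x ∈ O', x ∈ R → γ < D.ρ x → |f l x - c| ≤ δ := by
    intro l b hb δ hδ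
    obtain ⟨m, hm⟩ := exists_nat_one_div_lt hδ
    have h1 : b ∈ U l m := by
      have := hb.2
      simp only [mem_iInter] at this
      exact this l m
    obtain ⟨O', ⟨h2, c, hc⟩, hbO⟩ := h1
    exact ⟨O', h2, hbO, c, fun x hx hxR hxγ => (hc x hx hxR hxγ).trans hm.le⟩
  let T : ℕ → Set ℝ := fun N => {b | b ∈ O ∧ b ∈ R' ∧ γ < D.ρ b ∧
    ∀ l ≥ N, ∀ l' ≥ N, |f l b - f l' b| ≤ ε / 3}
  have hT : ∃ N, (interior (closure (T N))).Nonempty := by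
    by_contra hc
    push Not at hc
    have hM : IsMeagre (⋃ N, T N) := isMeagre_iUnion (fun N => IsNowhereDense.isMeagre (hc N))
    obtain ⟨u, hu⟩ := D.bdd {γ} (countable_singleton γ)
    obtain ⟨x, ⟨hxO, hxR⟩, hxu⟩ := D.nm u ⟨γ, hu γ rfl⟩ O hO hne (R' ∩ (⋃ N, T N)ᶜ)
      (inter_mem hR' hM)
    apply hxR.2
    have hcau := (hg x).cauchySeq
    rw [Metric.cauchySeq_iff] at hcau
    obtain ⟨N, hN⟩ := hcau (ε / 3) (by positivity)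
    refine mem_iUnion.2 ⟨N, hxO, hxR.1, by rw [hxu]; exact hu γ rfl, ?_⟩
    intro l hl l' hl'
    have := hN l hl l' hl'
    rw [Real.dist_eq] at this
    exact this.le
  obtain ⟨N, hN⟩ := hT
  -- meets O
  have hIO : (interior (closure (T N)) ∩ O).Nonempty := by
    obtain ⟨x, hx⟩ := hN
    have := interior_subset hx
    rw [mem_closure_iff] at this
    obtain ⟨y, hy1, hy2⟩ := this _ isOpen_interior hx
    exact ⟨y, hy1, hy2.1⟩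
  have key : ∀ b ∈ interior (closure (T N)) ∩ O, b ∈ R' → γ < D.ρ b → ∀ l ≥ N, ∀ l' ≥ N,
      |f l b - f l' b| ≤ ε / 3 := by
    intro b hb hbR hbγ l hl l' hl'
    refine le_of_forall_pos_le_add (fun δ hδ => ?_)
    obtain ⟨O₁, ho₁, hb₁, c₁, hc₁⟩ := hloc l b hbR (δ / 4) (by positivity)
    obtain ⟨O₂, ho₂, hb₂, c₂, hc₂⟩ := hloc l' b hbR (δ / 4) (by positivity)
    have hbc := interior_subset hb.1
    rw [mem_closure_iff] at hbc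
    obtain ⟨y, ⟨hy1, hy2⟩, hyT⟩ := hbc (O₁ ∩ O₂) (ho₁.inter ho₂) ⟨hb₁, hb₂⟩
    have e1 := hc₁ b hb₁ hbR.1 hbγ
    have e2 := hc₁ y hy1 hyT.2.1.1 hyT.2.2.1
    have e3 := hc₂ b hb₂ hbR.1 hbγ
    have e4 := hc₂ y hy2 hyT.2.1.1 hyT.2.2.1
    have e5 := hyT.2.2.2 l hl l' hl'
    rw [abs_le] at *
    constructor <;> linarith [e1.1, e1.2, e2.1, e2.2, e3.1, e3.2, e4.1, e4.2, e5.1, e5.2]
  have key2 : ∀ b ∈ interior (closure (T N)) ∩ O, b ∈ R' → γ < D.ρ b → |g b - f N b| ≤ ε / 3 := by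
    intro b hb hbR hbγ
    have h1 : Tendsto (fun l => |f l b - f N b|) atTop (𝓝 |g b - f N b|) :=
      ((hg b).sub_const _).abs
    refine le_of_tendsto h1 ?_
    filter_upwards [eventually_ge_atTop N] with l hl
    exact key b hb hbR hbγ l hl N le_rfl
  obtain ⟨O', h1, h2, h3, c, hc⟩ := hQ N _ (isOpen_interior.inter hO) hIO (ε / 3) (by positivity)
  refine ⟨O', fun x hx => (h1 hx).2, h2, h3, c, ?_⟩
  intro b hb hbR hbγ
  have e1 := key2 b (h1 hb) hbR hbγ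
  have e2 := hc b hb hbR.1 hbγ
  rw [abs_le] at *
  constructor <;> linarith [e1.1, e1.2, e2.1, e2.2]

end Pool.Agent.R583.SC
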