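import Pool.Agent.R583.SC.Space

open Set Topology Filter Cardinal

namespace Pool.Agent.R583.SC

/-- A function on `M^{<ω} = ⊕ₙ Mⁿ` is separately continuous if its restriction to every `Mⁿ` is
continuous in each coordinate when the other coordinates are held fixed. -/
def SepCont {M : Type*} [TopologicalSpace M] (f : (Σ n : ℕ, (Fin n → M)) → ℝ) : Prop :=
  ∀ (n : ℕ) (i : Fin n) (x : Fin n → M), Continuous fun t : M => f ⟨n, Function.update x i t⟩

/-- `SC_p(M^{<ω})`: the separately continuous functions on `M^{<ω}` with the topology of pointwise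
convergence (the subspace topology inherited from the product `ℝ^(M^{<ω})`). -/
abbrev SCp (M : Type*) [TopologicalSpace M] : Type _ :=
  {f : (Σ n : ℕ, (Fin n → M)) → ℝ // SepCont f}

variable {D : Data Om}

theorem diagCont (F : Pt D → ℝ) (hF : Continuous F) (j : ℕ) :
    DiagCont D (fun a b => F (Pt.pt a b j)) := by
  intro ε hε z
  have hU : IsOpen (F ⁻¹' Metric.ball (F (Pt.pt z z j)) ε) := Metric.isOpen_ball.preimage hF
  rw [isOpen_iff] at hU
  obtain ⟨δ, hδ, γ, hγ, h1, h2⟩ := hU.2 z j (Metric.mem_ball_self hε)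
  refine ⟨δ, hδ, γ, hγ, fun b hb1 hb2 hb3 => ?_, fun a ha => ?_⟩
  · have := h1 b hb1 hb2 hb3
    rwa [mem_preimage, Metric.mem_ball, Real.dist_eq] at this
  · have := h2 a ha
    rwa [mem_preimage, Metric.mem_ball, Real.dist_eq] at this

theorem Q_all {M : Type*} [TopologicalSpace M] [FirstCountableTopology M] (e : Pt D → SCp M)
    (he : Continuous e) (S : Set M) (hSc : S.Countable) (hSd : Dense S) :
    ∃ γ : Om, ∀ (j n : ℕ) (x : Fin n → M), ∃ R ∈ residual ℝ,
      Q D γ R (fun b => (e (Pt.pt b b j)).1 ⟨n, x⟩) := by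
  classical
  haveI : Countable S := hSc.to_subtype
  have hc : ∀ m, Continuous (fun x => (e x).1 m) := fun m =>
    (continuous_apply m).comp (continuous_subtype_val.comp he)
  have h1 : ∀ p : (Σ n : ℕ, (Fin n → S)) × ℕ, ∃ γ : Om,
      Q D γ univ (fun b => (e (Pt.pt b b p.2)).1 ⟨p.1.1, fun i => (p.1.2 i : M)⟩) := by
    intro p
    exact exists_Q D _ (diagCont _ (hc ⟨p.1.1, fun i => (p.1.2 i : M)⟩) p.2)
  choose γ hγ using h1
  obtain ⟨u, hu⟩ := D.bdd_range γ
  refine ⟨u, fun j n => ?_⟩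
  have key : ∀ (s : Finset (Fin n)) (x : Fin n → M), (∀ i, i ∉ s → x i ∈ S) →
      ∃ R ∈ residual ℝ, Q D u R (fun b => (e (Pt.pt b b j)).1 ⟨n, x⟩) := by
    intro s
    induction s using Finset.induction_on with
    | empty =>
      intro x hx
      refine ⟨Set.univ, univ_mem, ?_⟩
      exact (hγ (⟨n, fun i => ⟨x i, hx i (by simp)⟩⟩, j)).mono (hu _).le subset_rfl
    | insert i s his ih =>
      intro x hx
      obtain ⟨d, hdS, hd⟩ := mem_closure_iff_seq_limit.1 (hSd (x i))
      refine Q_lim D u (fun l b => (e (Pt.pt b b j)).1 ⟨n, Function.update x i (d l)⟩) _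
        (fun l => ih _ ?_) (fun b => ?_)
      · intro i' hi'
        by_cases h : i' = i
        · subst h; simpa using hdS l
        · rw [Function.update_of_ne h]
          exact hx i' (by simp [h, hi'])
      · have h2 := ((e (Pt.pt b b j)).2 n i x).tendsto (x i)
        have h3 := h2.comp hd
        simpa [Function.comp_def, Function.update_eq_self] using h3
  intro x
  exact key Finset.univ x (fun i hi => absurd (Finset.mem_univ i) hi)

theorem no_embedding {M : Type*} [TopologicalSpace M] [FirstCountableTopology M]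
    [TopologicalSpace.SeparableSpace M] (e : Pt D → SCp M) : ¬ IsEmbedding e := by
  classical
  intro he
  obtain ⟨S, hSc, hSd⟩ := TopologicalSpace.exists_countable_dense M
  obtain ⟨γ, hγ⟩ := Q_all e he.continuous S hSc hSd
  have hc : ∀ m, Continuous (fun x => (e x).1 m) := fun m =>
    (continuous_apply m).comp (continuous_subtype_val.comp he.continuous)
  obtain ⟨β, hβ⟩ := D.bdd {γ} (countable_singleton γ)
  have hγβ : γ < β := hβ γ rfl
  obtain ⟨V, hV, hVe⟩ := he.isInducing.isOpen_iff.1 (isClopen_OO (D := D) 0 β).isOpen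
  obtain ⟨W, hW, hWV⟩ := isOpen_induced_iff.1 hV
  have hinf : (e Pt.inf).1 ∈ W := by
    have : (Pt.inf : Pt D) ∈ e ⁻¹' V := by rw [hVe]; exact inf_mem_OO _ _
    rw [← hWV] at this
    exact this
  rw [isOpen_pi_iff] at hW
  obtain ⟨I, w, hw, hIW⟩ := hW _ hinf
  obtain ⟨ε, hε, hεw⟩ : ∃ ε > 0, ∀ i ∈ I, Metric.ball ((e Pt.inf).1 i) ε ⊆ w i := by
    clear hIW
    induction I using Finset.induction_on with
    | empty => exact ⟨1, one_pos, fun i hi => absurd hi (by simp)⟩
    | insert i s his ih =>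
      obtain ⟨ε, hε, h⟩ := ih (fun i' hi' => hw i' (Finset.mem_insert_of_mem hi'))
      obtain ⟨ε', hε', h'⟩ := Metric.isOpen_iff.1 (hw i (Finset.mem_insert_self _ _)).1 _
        (hw i (Finset.mem_insert_self _ _)).2
      refine ⟨min ε ε', lt_min hε hε', fun i' hi' => ?_⟩
      rcases Finset.mem_insert.1 hi' with rfl | hi'
      · exact (Metric.ball_subset_ball (min_le_right _ _)).trans h'
      · exact (Metric.ball_subset_ball (min_le_left _ _)).trans (h i' hi')
  -- a smaller neighbourhood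
  have hV' : IsOpen (⋂ i ∈ I, (fun x => (e x).1 i) ⁻¹' Metric.ball ((e Pt.inf).1 i) (ε / 4)) :=
    isOpen_biInter_finset (fun i _ => Metric.isOpen_ball.preimage (hc i))
  rw [isOpen_iff] at hV'
  obtain ⟨n, β', hn⟩ := hV'.1 (by
    simp only [mem_iInter, mem_preimage]
    exact fun i _ => Metric.mem_ball_self (by positivity))
  -- common set of small oscillation
  have hosc : ∃ O : Set ℝ, IsOpen O ∧ O.Nonempty ∧ ∃ R ∈ residual ℝ,
      ∃ c : (Σ n : ℕ, (Fin n → M)) → ℝ, ∀ i ∈ I, ∀ b ∈ O, b ∈ R → γ < D.ρ b →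
        |(e (Pt.pt b b n)).1 i - c i| ≤ ε / 4 := by
    clear hn hV' hεw hw hIW
    induction I using Finset.induction_on with
    | empty => exact ⟨Set.univ, isOpen_univ, univ_nonempty, Set.univ, univ_mem, 0,
        fun i hi => absurd hi (by simp)⟩
    | insert i s his ih =>
      obtain ⟨O, hO, hne, R, hR, c, hc⟩ := ih
      obtain ⟨R', hR', hQ⟩ := hγ n i.1 i.2
      obtain ⟨O', h1, h2, h3, c', hc'⟩ := hQ O hO hne (ε / 4) (by positivity)
      refine ⟨O', h2, h3, R ∩ R', inter_mem hR hR', Function.update c i c', ?_⟩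
      intro i' hi' b hb hbR hbγ
      by_cases h : i' = i
      · subst h
        rw [Function.update_self]
        exact hc' b hb hbR.2 hbγ
      · rw [Function.update_of_ne h]
        have hi'' : i' ∈ s := by
          rcases Finset.mem_insert.1 hi' with h' | h'
          · exact absurd h' h
          · exact h'
        exact hc i' hi'' b (h1 hb) hbR.1 hbγ
  obtain ⟨O, hO, hne, R, hR, c, hosc⟩ := hosc
  obtain ⟨τ, hτ⟩ := D.bdd {β', γ} (by simp)
  have hτβ' : β' < τ := hτ β' (by simp)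
  have hτγ : γ < τ := hτ γ (by simp)
  obtain ⟨b₁, ⟨hb₁O, hb₁R⟩, hb₁⟩ := D.nm τ ⟨γ, hτγ⟩ O hO hne R hR
  obtain ⟨b₂, ⟨hb₂O, hb₂R⟩, hb₂⟩ := D.nm β ⟨γ, hγβ⟩ O hO hne R hR
  have h1 := hn n le_rfl b₁ b₁ (by rw [hb₁]; exact hτβ')
  simp only [mem_iInter, mem_preimage, Metric.mem_ball, Real.dist_eq] at h1
  have h2 : (Pt.pt b₂ b₂ n : Pt D) ∈ e ⁻¹' V := by
    rw [← hWV]
    apply hIW
    intro i hi
    apply hεw i hi
    rw [Metric.mem_ball, Real.dist_eq]
    have e1 := h1 i hi
    have e2 := hosc i hi b₁ hb₁O hb₁R (by rw [hb₁]; exact hτγ)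
    have e3 := hosc i hi b₂ hb₂O hb₂R (by rw [hb₂]; exact hγβ)
    rw [abs_lt] at e1 ⊢
    rw [abs_le] at e2 e3
    constructor <;> linarith [e1.1, e1.2, e2.1, e2.2, e3.1, e3.2]
  rw [hVe, pt_mem_OO, hb₂] at h2
  exact lt_irrefl _ h2.2

theorem main : ∃ (X : Type) (_ : TopologicalSpace X),
    T35Space X ∧ IsSigmaSpace X ∧
    (∃ B : Set (Set X), TopologicalSpace.IsTopologicalBasis B ∧ #B ≤ 𝔠) ∧
    (∃ j : X → ℝ × ℝ × ℝ, Continuous j ∧ Function.Injective j) ∧
    ∀ (M : Type*) [TopologicalSpace M] [TopologicalSpace.MetrizableSpace M]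
      [TopologicalSpace.SeparableSpace M] (e : X → SCp M), ¬ IsEmbedding e := by
  obtain ⟨D⟩ := exists_data
  exact ⟨Pt D, instTopPt D, inferInstance, sigmaSpace, weight_le, ⟨emb3, emb3_cont, emb3_inj⟩,
    fun M _ _ _ e => no_embedding e⟩

end Pool.Agent.R583.SC
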