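import Pool.Agent.R583.SC.Core

open Set Topology Filter Cardinal

namespace Pool.Agent.R583.SC

/-- The index set: all countable ordinals. -/
abbrev Om : Type := (Cardinal.aleph 1).ord.ToType

theorem mk_Om : #Om = ℵ_ 1 := Cardinal.mk_ord_toType _

theorem ctbl_Om (a : Om) : (Iio a).Countable := by
  rw [← Cardinal.le_aleph0_iff_set_countable]
  have := Cardinal.mk_Iio_toType_ord_lt (c := ℵ_ 1) a
  rw [← Order.lt_succ_iff]
  rwa [Cardinal.succ_aleph0]

theorem bdd_Om (C : Set Om) (hC : C.Countable) : ∃ b, ∀ c ∈ C, c < b := by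
  by_contra hcon
  push Not at hcon
  have h1 : (univ : Set Om) ⊆ ⋃ c ∈ C, Iic c := by
    intro b _
    obtain ⟨c, hc, hbc⟩ := hcon b
    simp only [mem_iUnion]
    exact ⟨c, hc, hbc⟩
  have h2 : (⋃ c ∈ C, Iic c).Countable := by
    refine hC.biUnion (fun c _ => ?_)
    have : Iic c = insert c (Iio c) := by
      ext x; simp [le_iff_eq_or_lt]
    rw [this]
    exact (ctbl_Om c).insert c
  have h3 := (h2.mono h1)
  rw [Set.countable_univ_iff] at h3
  have h4 : #Om ≤ ℵ₀ := Cardinal.mk_le_aleph0_iff.2 h3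
  rw [mk_Om] at h4
  exact absurd h4 (not_le.2 Cardinal.aleph0_lt_aleph_one)

/-- A subgroup of the reals is nonmeagre in every open set as soon as it is nonmeagre and closed
under rational multiples. -/
theorem everywhere (H : Set ℝ) (hsub : ∀ x ∈ H, ∀ y ∈ H, x - y ∈ H)
    (hq : ∀ x ∈ H, ∀ q : ℚ, (q : ℝ) * x ∈ H) (h₀ : ℝ) (hh₀ : h₀ ∈ H) (hne0 : h₀ ≠ 0)
    (hH : ¬ IsMeagre H) (O : Set ℝ) (hO : IsOpen O) (hne : O.Nonempty) (R : Set ℝ)
    (hR : R ∈ residual ℝ) : ∃ x ∈ O ∩ R, x ∈ H := by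
  by_contra hcon
  push Not at hcon
  apply hH
  have h1 : H ⊆ ⋃ q : ℚ, (fun y : ℝ => y - (q : ℝ) * h₀) ⁻¹' Rᶜ := by
    intro y hy
    have hd : DenseRange (fun q : ℚ => y - (q : ℝ) * h₀) := by
      have h2 : DenseRange (fun q : ℚ => (q : ℝ)) := Rat.denseRange_cast
      have h3 : (fun q : ℚ => y - (q : ℝ) * h₀) = (fun t : ℝ => y - t * h₀) ∘
        (fun q : ℚ => (q : ℝ)) := rfl
      rw [h3]
      refine DenseRange.comp ?_ h2 (by fun_prop)
      refine Function.Surjective.denseRange (fun z => ⟨(y - z) / h₀, ?_⟩)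
      field_simp
      ring
    obtain ⟨q, hqO⟩ := hd.exists_mem_open hO hne
    refine mem_iUnion.2 ⟨q, ?_⟩
    intro hqR
    exact hcon _ ⟨hqO, hqR⟩ (hsub y hy _ (hq h₀ hh₀ q))
  refine IsMeagre.mono h1 (isMeagre_iUnion (fun q => ?_))
  have h2 : IsMeagre (Rᶜ) := by
    unfold IsMeagre; rwa [compl_compl]
  exact h2.preimage_of_isOpenMap (by fun_prop) (Homeomorph.subRight ((q : ℝ) * h₀)).isOpenMap

theorem exists_data : Nonempty (Data Om) := by
  classical
  let b := Module.Basis.ofVectorSpace ℚ ℝ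
  set ι := Module.Basis.ofVectorSpaceIndex ℚ ℝ with hι
  have hunc : ¬ Countable ι := by
    intro hc
    have : Countable ℝ := b.repr.toEquiv.injective.countable
    exact not_countable this
  have hinf : Infinite ι := by
    by_contra hf
    rw [not_infinite_iff_finite] at hf
    exact hunc inferInstance
  have hcard : #(ι × ℕ) = #ι := by
    rw [Cardinal.mk_prod, Cardinal.lift_uzero, Cardinal.mk_nat, Cardinal.lift_aleph0]
    exact Cardinal.mul_aleph0_eq (Cardinal.aleph0_le_mk ι)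
  obtain ⟨e⟩ := Cardinal.eq.1 hcard
  -- `e : ι × ℕ ≃ ι`
  let H : ℕ → Set ℝ := fun n => {x | ∀ i, b.repr x (e (i, n)) = 0}
  have hcov : (⋃ n, H n) = Set.univ := by
    refine eq_univ_of_forall (fun x => ?_)
    obtain ⟨n, hn⟩ := Infinite.exists_notMem_finset ((b.repr x).support.image
      (fun j => (e.symm j).2))
    refine mem_iUnion.2 ⟨n, fun i => ?_⟩
    by_contra h
    apply hn
    rw [Finset.mem_image]
    exact ⟨e (i, n), Finsupp.mem_support_iff.2 h, by simp⟩
  obtain ⟨n, hn⟩ : ∃ n, ¬ IsMeagre (H n) := by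
    by_contra hc
    push Not at hc
    have := isMeagre_iUnion hc
    rw [hcov] at this
    exact not_isMeagre_of_isOpen isOpen_univ ⟨0, mem_univ _⟩ this
  have hι1 : #Om ≤ #ι := by
    rw [mk_Om, ← Cardinal.succ_aleph0, Order.succ_le_iff, ← not_le, Cardinal.mk_le_aleph0_iff]
    exact hunc
  obtain ⟨j⟩ := hι1
  let v : Om → ℝ := fun α => b (e (j α, n))
  have hv : ∀ α β, v α - v β ∈ H n → α = β := by
    intro α β h
    by_contra hne
    have h1 := h (j α)
    simp only [v, map_sub, Finsupp.sub_apply, Module.Basis.repr_self] at h1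
    rw [Finsupp.single_eq_same, Finsupp.single_eq_of_ne] at h1
    · norm_num at h1
    · intro h2
      exact hne (j.injective (by simpa using e.injective h2))
  have hHsub : ∀ x ∈ H n, ∀ y ∈ H n, x - y ∈ H n := by
    intro x hx y hy i
    rw [map_sub, Finsupp.sub_apply, hx i, hy i, sub_zero]
  have hHq : ∀ x ∈ H n, ∀ q : ℚ, (q : ℝ) * x ∈ H n := by
    intro x hx q i
    have : (q : ℝ) * x = q • x := (Rat.smul_def q x).symm
    rw [this, map_smul, Finsupp.smul_apply, hx i, smul_zero]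
  obtain ⟨i₀⟩ : Nonempty ι := inferInstance
  have hh₀ : b (e (i₀, n + 1)) ∈ H n := by
    intro i
    rw [Module.Basis.repr_self, Finsupp.single_eq_of_ne]
    intro h
    have := e.injective h
    simp at this
  have hw0 : ∃ α₀ α₁ : Om, α₀ < α₁ := by
    obtain ⟨b1, -⟩ := bdd_Om ∅ countable_empty
    obtain ⟨b2, hb2⟩ := bdd_Om {b1} (countable_singleton _)
    exact ⟨b1, b2, hb2 b1 rfl⟩
  obtain ⟨α₀, α₁, h01⟩ := hw0
  let ρ : ℝ → Om := fun x => if h : ∃ α, (∃ γ, γ < α) ∧ x - v α ∈ H n then h.choose else α₁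
  have hρ : ∀ α, (∃ γ, γ < α) → ∀ x, x - v α ∈ H n → ρ x = α := by
    intro α hα x hx
    have h : ∃ α, (∃ γ, γ < α) ∧ x - v α ∈ H n := ⟨α, hα, hx⟩
    have h1 : ρ x = h.choose := dif_pos h
    rw [h1]
    apply hv
    have h2 := hHsub _ hx _ h.choose_spec.2
    have h3 : x - v α - (x - v h.choose) = v h.choose - v α := by ring
    rwa [h3] at h2
  refine ⟨{ ρ := ρ, bdd := bdd_Om, ctbl := ctbl_Om, pos := ?_, nm := ?_ }⟩
  · intro x
    by_cases h : ∃ α, (∃ γ, γ < α) ∧ x - v α ∈ H n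
    · have h1 : ρ x = h.choose := dif_pos h
      rw [h1]; exact h.choose_spec.1
    · have h1 : ρ x = α₁ := dif_neg h
      rw [h1]; exact ⟨α₀, h01⟩
  · intro α hα O hO hne R hR
    have hne' : ((fun x : ℝ => x + v α) ⁻¹' O).Nonempty := by
      obtain ⟨y, hy⟩ := hne
      exact ⟨y - v α, by simpa using hy⟩
    have hR' : (fun x : ℝ => x + v α) ⁻¹' R ∈ residual ℝ := by
      have h2 : IsMeagre (Rᶜ) := by
        unfold IsMeagre; rwa [compl_compl]
      have h3 := h2.preimage_of_isOpenMap (f := fun x : ℝ => x + v α) (by fun_prop)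
        (Homeomorph.addRight (v α)).isOpenMap
      unfold IsMeagre at h3
      rwa [← preimage_compl, compl_compl] at h3
    obtain ⟨x, ⟨hxO, hxR⟩, hxH⟩ := everywhere (H n) hHsub hHq _ hh₀ (b.ne_zero _) hn _
      (hO.preimage (by fun_prop)) hne' _ hR'
    exact ⟨x + v α, ⟨hxO, hxR⟩, hρ α hα _ (by simpa using hxH)⟩

end Pool.Agent.R583.SC
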