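import Pool.Agent.R583.SC.Part

open Set Topology Filter Cardinal

namespace Pool.Agent.R583.SC

/-- The points of the space: `∞` and countably many copies of the plane. -/
inductive Pt (D : Data Om) : Type
  | inf : Pt D
  | pt (a b : ℝ) (j : ℕ) : Pt D

variable {D : Data Om}

open Pt

/-- Points off the diagonals are isolated; `pt z z j` has cross neighbourhoods; `inf` has the
neighbourhoods `{inf} ∪ {pt a b j : n ≤ j, β < ρ b}`. -/
instance instTopPt (D : Data Om) : TopologicalSpace (Pt D) where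
  IsOpen U := ((inf : Pt D) ∈ U → ∃ (n : ℕ) (β : Om), ∀ j, n ≤ j → ∀ a b, β < D.ρ b →
      (pt a b j : Pt D) ∈ U) ∧
    ∀ z j, (pt z z j : Pt D) ∈ U → ∃ ε > 0, ∃ γ < D.ρ z,
      (∀ b, |z - b| < ε → γ < D.ρ b → D.ρ b ≤ D.ρ z → (pt z b j : Pt D) ∈ U) ∧
      (∀ a, |a - z| < ε → (pt a z j : Pt D) ∈ U)
  isOpen_univ := by
    refine ⟨fun _ => ⟨0, D.ρ 0, fun _ _ _ _ _ => mem_univ _⟩, fun z j _ => ?_⟩
    obtain ⟨γ, hγ⟩ := D.pos z
    exact ⟨1, one_pos, γ, hγ, fun _ _ _ _ => mem_univ _, fun _ _ => mem_univ _⟩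
  isOpen_inter := by
    rintro U V ⟨hU1, hU2⟩ ⟨hV1, hV2⟩
    refine ⟨fun h => ?_, fun z j h => ?_⟩
    · obtain ⟨n, β, h1⟩ := hU1 h.1
      obtain ⟨n', β', h2⟩ := hV1 h.2
      refine ⟨max n n', max β β', fun j hj a b hb => ⟨h1 j (le_trans (le_max_left _ _) hj) a b
        (lt_of_le_of_lt (le_max_left _ _) hb), h2 j (le_trans (le_max_right _ _) hj) a b
        (lt_of_le_of_lt (le_max_right _ _) hb)⟩⟩
    · obtain ⟨ε, hε, γ, hγ, h1, h2⟩ := hU2 z j h.1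
      obtain ⟨ε', hε', γ', hγ', h1', h2'⟩ := hV2 z j h.2
      refine ⟨min ε ε', lt_min hε hε', max γ γ', max_lt hγ hγ', fun b hb1 hb2 hb3 => ⟨?_, ?_⟩,
        fun a ha => ⟨?_, ?_⟩⟩
      · exact h1 b (lt_of_lt_of_le hb1 (min_le_left _ _)) (lt_of_le_of_lt (le_max_left _ _) hb2) hb3
      · exact h1' b (lt_of_lt_of_le hb1 (min_le_right _ _))
          (lt_of_le_of_lt (le_max_right _ _) hb2) hb3
      · exact h2 a (lt_of_lt_of_le ha (min_le_left _ _))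
      · exact h2' a (lt_of_lt_of_le ha (min_le_right _ _))
  isOpen_sUnion := by
    intro S hS
    refine ⟨fun h => ?_, fun z j h => ?_⟩
    · obtain ⟨U, hU, hUi⟩ := h
      obtain ⟨n, β, h1⟩ := (hS U hU).1 hUi
      exact ⟨n, β, fun j hj a b hb => ⟨U, hU, h1 j hj a b hb⟩⟩
    · obtain ⟨U, hU, hUi⟩ := h
      obtain ⟨ε, hε, γ, hγ, h1, h2⟩ := (hS U hU).2 z j hUi
      exact ⟨ε, hε, γ, hγ, fun b hb1 hb2 hb3 => ⟨U, hU, h1 b hb1 hb2 hb3⟩,
        fun a ha => ⟨U, hU, h2 a ha⟩⟩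

theorem isOpen_iff (U : Set (Pt D)) : IsOpen U ↔
    ((inf : Pt D) ∈ U → ∃ (n : ℕ) (β : Om), ∀ j, n ≤ j → ∀ a b, β < D.ρ b →
      (pt a b j : Pt D) ∈ U) ∧
    ∀ z j, (pt z z j : Pt D) ∈ U → ∃ ε > 0, ∃ γ < D.ρ z,
      (∀ b, |z - b| < ε → γ < D.ρ b → D.ρ b ≤ D.ρ z → (pt z b j : Pt D) ∈ U) ∧
      (∀ a, |a - z| < ε → (pt a z j : Pt D) ∈ U) := Iff.rfl

/-- basic neighbourhoods of `inf` -/
def OO (D : Data Om) (n : ℕ) (β : Om) : Set (Pt D) :=
  {x | x = inf ∨ ∃ a b j, x = pt a b j ∧ n ≤ j ∧ β < D.ρ b}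

/-- basic neighbourhoods of `pt z z j` -/
def NN (D : Data Om) (z : ℝ) (j : ℕ) (ε : ℝ) (γ : Om) : Set (Pt D) :=
  {x | ∃ a b, x = pt a b j ∧ ((a = z ∧ (b = z ∨ (|z - b| < ε ∧ γ < D.ρ b ∧ D.ρ b ≤ D.ρ z))) ∨
    (b = z ∧ |a - z| < ε))}

theorem inf_mem_OO (n : ℕ) (β : Om) : (inf : Pt D) ∈ OO D n β := Or.inl rfl

theorem pt_mem_OO {a b : ℝ} {j n : ℕ} {β : Om} :
    (pt a b j : Pt D) ∈ OO D n β ↔ n ≤ j ∧ β < D.ρ b := by
  constructor
  · rintro (h | ⟨a', b', j', h, h1, h2⟩)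
    · exact absurd h (by simp)
    · simp only [pt.injEq] at h
      obtain ⟨-, rfl, rfl⟩ := h
      exact ⟨h1, h2⟩
  · rintro ⟨h1, h2⟩
    exact Or.inr ⟨a, b, j, rfl, h1, h2⟩

theorem inf_notMem_NN (z : ℝ) (j : ℕ) (ε : ℝ) (γ : Om) : (inf : Pt D) ∉ NN D z j ε γ := by
  rintro ⟨a, b, h, -⟩
  exact absurd h (by simp)

theorem pt_mem_NN {a b z : ℝ} {j j' : ℕ} {ε : ℝ} {γ : Om} :
    (pt a b j' : Pt D) ∈ NN D z j ε γ ↔ j' = j ∧
      ((a = z ∧ (b = z ∨ (|z - b| < ε ∧ γ < D.ρ b ∧ D.ρ b ≤ D.ρ z))) ∨ (b = z ∧ |a - z| < ε)) := by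
  constructor
  · rintro ⟨a', b', h, h1⟩
    simp only [pt.injEq] at h
    obtain ⟨rfl, rfl, rfl⟩ := h
    exact ⟨rfl, h1⟩
  · rintro ⟨rfl, h⟩
    exact ⟨a, b, rfl, h⟩

theorem isClopen_OO (n : ℕ) (β : Om) : IsClopen (OO D n β) := by
  constructor
  · rw [← isOpen_compl_iff, isOpen_iff]
    refine ⟨fun h => absurd (inf_mem_OO n β) h, fun z j h => ?_⟩
    obtain ⟨γ, hγ⟩ := D.pos z
    rw [mem_compl_iff, pt_mem_OO] at h
    refine ⟨1, one_pos, γ, hγ, fun b _ _ hb3 => ?_, fun a _ => ?_⟩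
    · rw [mem_compl_iff, pt_mem_OO]
      exact fun h' => h ⟨h'.1, lt_of_lt_of_le h'.2 hb3⟩
    · rw [mem_compl_iff, pt_mem_OO]; exact h
  · rw [isOpen_iff]
    refine ⟨fun _ => ⟨n, β, fun j hj a b hb => pt_mem_OO.2 ⟨hj, hb⟩⟩, fun z j h => ?_⟩
    rw [pt_mem_OO] at h
    refine ⟨1, one_pos, β, h.2, fun b _ hb2 _ => pt_mem_OO.2 ⟨h.1, hb2⟩,
      fun a _ => pt_mem_OO.2 h⟩

theorem isOpen_NN (z : ℝ) (j : ℕ) (ε : ℝ) (hε : 0 < ε) (γ : Om) (hγ : γ < D.ρ z) :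
    IsOpen (NN D z j ε γ) := by
  rw [isOpen_iff]
  refine ⟨fun h => absurd h (inf_notMem_NN z j ε γ), fun y j' h => ?_⟩
  rw [pt_mem_NN] at h
  obtain ⟨rfl, h⟩ := h
  have hyz : y = z := by
    rcases h with h | h
    · exact h.1
    · exact h.1
  subst hyz
  refine ⟨ε, hε, γ, hγ, fun b h1 h2 h3 => pt_mem_NN.2 ⟨rfl, Or.inl ⟨rfl, Or.inr ⟨h1, h2, h3⟩⟩⟩,
    fun a h1 => pt_mem_NN.2 ⟨rfl, Or.inr ⟨rfl, h1⟩⟩⟩

theorem isClosed_NN (z : ℝ) (j : ℕ) (ε : ℝ) (hε : 0 < ε) (γ : Om) :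
    IsClosed (NN D z j ε γ) := by
  rw [← isOpen_compl_iff, isOpen_iff]
  refine ⟨fun _ => ⟨j + 1, D.ρ 0, fun j' hj' a b _ => ?_⟩, fun y j' h => ?_⟩
  · rw [mem_compl_iff, pt_mem_NN]
    rintro ⟨rfl, -⟩
    omega
  · obtain ⟨γ', hγ'⟩ := D.pos y
    rw [mem_compl_iff, pt_mem_NN] at h
    by_cases hj : j' = j
    · subst hj
      have hyz : y ≠ z := by
        rintro rfl
        exact h ⟨rfl, Or.inr ⟨rfl, by simpa using hε⟩⟩
      refine ⟨|y - z|, abs_pos.2 (sub_ne_zero.2 hyz), γ', hγ', fun b h1 _ _ => ?_, fun a h1 => ?_⟩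
      · rw [mem_compl_iff, pt_mem_NN]
        rintro ⟨-, ⟨h2, -⟩ | ⟨rfl, -⟩⟩
        · exact hyz h2
        · exact lt_irrefl _ h1
      · rw [mem_compl_iff, pt_mem_NN]
        rintro ⟨-, ⟨rfl, -⟩ | ⟨h2, -⟩⟩
        · rw [abs_sub_comm] at h1
          exact lt_irrefl _ h1
        · exact hyz h2
    · refine ⟨1, one_pos, γ', hγ', fun b _ _ _ => ?_, fun a _ => ?_⟩
      · rw [mem_compl_iff, pt_mem_NN]; exact fun h' => hj h'.1
      · rw [mem_compl_iff, pt_mem_NN]; exact fun h' => hj h'.1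

theorem isOpen_single {a b : ℝ} (j : ℕ) (hab : a ≠ b) : IsOpen ({pt a b j} : Set (Pt D)) := by
  rw [isOpen_iff]
  refine ⟨fun h => absurd h (by simp), fun z j' h => ?_⟩
  rw [mem_singleton_iff, pt.injEq] at h
  exact absurd (h.1.symm.trans h.2.1) hab

theorem isClosed_single (x : Pt D) : IsClosed ({x} : Set (Pt D)) := by
  rw [← isOpen_compl_iff, isOpen_iff]
  cases x with
  | inf =>
    refine ⟨fun h => absurd rfl h, fun z j _ => ?_⟩
    obtain ⟨γ', hγ'⟩ := D.pos z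
    exact ⟨1, one_pos, γ', hγ', fun b _ _ _ => by simp, fun a _ => by simp⟩
  | pt a b j =>
    refine ⟨fun _ => ⟨j + 1, D.ρ 0, fun j' hj' a' b' _ => ?_⟩, fun z j' h => ?_⟩
    · rw [mem_compl_iff, mem_singleton_iff, pt.injEq]
      rintro ⟨-, -, rfl⟩
      omega
    · obtain ⟨γ', hγ'⟩ := D.pos z
      rw [mem_compl_iff, mem_singleton_iff, pt.injEq] at h
      by_cases hj : j' = j
      · subst hj
        by_cases hab : a = b
        · subst hab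
          have hza : z ≠ a := by
            rintro rfl
            exact h ⟨rfl, rfl, rfl⟩
          refine ⟨1, one_pos, γ', hγ', fun b' _ _ _ => ?_, fun a' _ => ?_⟩
          · rw [mem_compl_iff, mem_singleton_iff, pt.injEq]
            exact fun h' => hza h'.1
          · rw [mem_compl_iff, mem_singleton_iff, pt.injEq]
            exact fun h' => hza h'.2.1
        · refine ⟨|a - b|, abs_pos.2 (sub_ne_zero.2 hab), γ', hγ', fun b' h1 _ _ => ?_,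
            fun a' h1 => ?_⟩
          · rw [mem_compl_iff, mem_singleton_iff, pt.injEq]
            rintro ⟨rfl, rfl, -⟩
            exact lt_irrefl _ h1
          · rw [mem_compl_iff, mem_singleton_iff, pt.injEq]
            rintro ⟨rfl, rfl, -⟩
            exact lt_irrefl _ h1
      · refine ⟨1, one_pos, γ', hγ', fun b' _ _ _ => ?_, fun a' _ => ?_⟩
        · rw [mem_compl_iff, mem_singleton_iff, pt.injEq]; exact fun h' => hj h'.2.2
        · rw [mem_compl_iff, mem_singleton_iff, pt.injEq]; exact fun h' => hj h'.2.2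

instance : T1Space (Pt D) := ⟨isClosed_single⟩

/-- The basic sets form a clopen base. -/
theorem exists_basic (x : Pt D) (U : Set (Pt D)) (hU : IsOpen U) (hx : x ∈ U) :
    ∃ V : Set (Pt D), IsClopen V ∧ x ∈ V ∧ V ⊆ U ∧
      ((∃ n β, V = OO D n β) ∨ (∃ z j, ∃ (k : ℕ) (γ : Om), V = NN D z j (1 / ((k : ℝ) + 1)) γ) ∨
        ∃ a b j, V = {pt a b j}) := by
  rw [isOpen_iff] at hU
  cases x with
  | inf =>
    obtain ⟨n, β, h⟩ := hU.1 hx
    refine ⟨OO D n β, isClopen_OO n β, inf_mem_OO n β, ?_, Or.inl ⟨n, β, rfl⟩⟩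
    rintro y (rfl | ⟨a, b, j, rfl, h1, h2⟩)
    · exact hx
    · exact h j h1 a b h2
  | pt a b j =>
    by_cases hab : a = b
    · subst hab
      obtain ⟨ε, hε, γ, hγ, h1, h2⟩ := hU.2 a j hx
      obtain ⟨k, hk⟩ := exists_nat_one_div_lt hε
      have hk0 : (0 : ℝ) < 1 / ((k : ℝ) + 1) := by positivity
      refine ⟨NN D a j (1 / ((k : ℝ) + 1)) γ, ⟨isClosed_NN _ _ _ hk0 _, isOpen_NN _ _ _ hk0 _ hγ⟩,
        pt_mem_NN.2 ⟨rfl, Or.inl ⟨rfl, Or.inl rfl⟩⟩, ?_, Or.inr (Or.inl ⟨a, j, k, γ, rfl⟩)⟩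
      rintro y ⟨a', b', rfl, ⟨rfl, rfl | h3⟩ | ⟨rfl, h3⟩⟩
      · exact hx
      · exact h1 b' (h3.1.trans hk) h3.2.1 h3.2.2
      · exact h2 a' (h3.trans hk)
    · refine ⟨{pt a b j}, ⟨isClosed_single _, isOpen_single j hab⟩, rfl, ?_,
        Or.inr (Or.inr ⟨a, b, j, rfl⟩)⟩
      rintro y rfl
      exact hx

instance : CompletelyRegularSpace (Pt D) := by
  rw [completelyRegularSpace_iff_isOpen]
  intro x U hU hx
  obtain ⟨V, hV, hxV, hVU, -⟩ := exists_basic x U hU hx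
  classical
  refine ⟨fun y => if y ∈ V then 0 else 1, ?_, if_pos hxV, ?_⟩
  · refine IsLocallyConstant.continuous ?_
    intro s
    by_cases h0 : (0 : unitInterval) ∈ s <;> by_cases h1 : (1 : unitInterval) ∈ s
    · convert isOpen_univ using 1
      ext y; by_cases hy : y ∈ V <;> simp [hy, h0, h1]
    · convert hV.isOpen using 1
      ext y; by_cases hy : y ∈ V <;> simp [hy, h0, h1]
    · convert hV.compl.isOpen using 1
      ext y; by_cases hy : y ∈ V <;> simp [hy, h0, h1]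
    · convert isOpen_empty using 1
      ext y; by_cases hy : y ∈ V <;> simp [hy, h0, h1]
  · intro y hy
    have : y ∉ V := fun h => hy (hVU h)
    simp [this]

instance : T35Space (Pt D) where

theorem weight_le : ∃ B : Set (Set (Pt D)), TopologicalSpace.IsTopologicalBasis B ∧ #B ≤ 𝔠 := by
  let I := (ℝ × ℝ × ℕ) ⊕ (ℝ × ℕ × ℕ × Om) ⊕ (ℕ × Om)
  let f : I → Set (Pt D) := fun i => match i with
    | Sum.inl p => {pt p.1 p.2.1 p.2.2}
    | Sum.inr (Sum.inl p) => NN D p.1 p.2.1 (1 / ((p.2.2.1 : ℝ) + 1)) p.2.2.2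
    | Sum.inr (Sum.inr p) => OO D p.1 p.2
  refine ⟨{S | S ∈ range f ∧ IsOpen S}, ?_, ?_⟩
  · refine TopologicalSpace.isTopologicalBasis_of_isOpen_of_nhds (fun S hS => hS.2) ?_
    intro x U hx hU
    obtain ⟨V, hV, hxV, hVU, h⟩ := exists_basic x U hU hx
    refine ⟨V, ⟨?_, hV.isOpen⟩, hxV, hVU⟩
    rcases h with ⟨n, β, rfl⟩ | ⟨z, j, k, γ, rfl⟩ | ⟨a, b, j, rfl⟩
    · exact ⟨Sum.inr (Sum.inr (n, β)), rfl⟩
    · exact ⟨Sum.inr (Sum.inl (z, j, k, γ)), rfl⟩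
    · exact ⟨Sum.inl (a, b, j), rfl⟩
  · have h1 : #({S | S ∈ range f ∧ IsOpen S} : Set (Set (Pt D))) ≤ #(range f) :=
      Cardinal.mk_le_mk_of_subset (fun S hS => hS.1)
    refine h1.trans (Cardinal.mk_range_le.trans ?_)
    have h2 : #Om ≤ 𝔠 := by rw [mk_Om]; exact Cardinal.aleph_one_le_continuum
    have h3 : #I = #ℝ * (#ℝ * ℵ₀) + (#ℝ * (ℵ₀ * (ℵ₀ * #Om)) + ℵ₀ * #Om) := by
      simp [I]
    rw [h3, Cardinal.mk_real]
    have hc : ℵ₀ ≤ 𝔠 := Cardinal.aleph0_le_continuum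
    have hm : ∀ a b : Cardinal, a ≤ 𝔠 → b ≤ 𝔠 → a * b ≤ 𝔠 := fun a b ha hb =>
      (mul_le_mul' ha hb).trans (Cardinal.mul_eq_self hc).le
    have ha : ∀ a b : Cardinal, a ≤ 𝔠 → b ≤ 𝔠 → a + b ≤ 𝔠 := fun a b ha hb =>
      (add_le_add ha hb).trans (Cardinal.add_eq_self hc).le
    exact ha _ _ (hm _ _ le_rfl (hm _ _ le_rfl hc)) (ha _ _ (hm _ _ le_rfl (hm _ _ hc (hm _ _ hc h2)))
      (hm _ _ hc h2))

/-- A `σ`-space: a regular space with a `σ`-locally finite network. -/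
def IsSigmaSpace (X : Type*) [TopologicalSpace X] : Prop :=
  RegularSpace X ∧ ∃ 𝒩 : ℕ → Set (Set X), (∀ n, LocallyFinite (fun s : 𝒩 n => (s : Set X))) ∧
    ∀ (x : X) (U : Set X), IsOpen U → x ∈ U → ∃ n, ∃ s ∈ 𝒩 n, x ∈ s ∧ s ⊆ U

/-- The closed discrete pieces. -/
def CC (D : Data Om) (n : ℕ) : Set (Pt D) :=
  {x | x = inf ∨ ∃ a b j, x = pt a b j ∧ j ≤ n ∧ (a = b ∨ 1 / ((n : ℝ) + 1) ≤ |a - b|)}

theorem pt_mem_CC {a b : ℝ} {j n : ℕ} :
    (pt a b j : Pt D) ∈ CC D n ↔ j ≤ n ∧ (a = b ∨ 1 / ((n : ℝ) + 1) ≤ |a - b|) := by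
  constructor
  · rintro (h | ⟨a', b', j', h, h1, h2⟩)
    · exact absurd h (by simp)
    · simp only [pt.injEq] at h
      obtain ⟨rfl, rfl, rfl⟩ := h
      exact ⟨h1, h2⟩
  · rintro ⟨h1, h2⟩
    exact Or.inr ⟨a, b, j, rfl, h1, h2⟩

theorem CC_discrete (n : ℕ) (x : Pt D) : ∃ t ∈ 𝓝 x, ∀ y ∈ t, y ∈ CC D n → y = x := by
  cases x with
  | inf =>
    refine ⟨OO D (n + 1) (D.ρ 0), (isClopen_OO _ _).isOpen.mem_nhds (inf_mem_OO _ _), ?_⟩
    rintro y (rfl | ⟨a, b, j, rfl, h1, -⟩) h2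
    · rfl
    · rw [pt_mem_CC] at h2
      omega
  | pt a b j =>
    by_cases hab : a = b
    · subst hab
      obtain ⟨γ, hγ⟩ := D.pos a
      have hk0 : (0 : ℝ) < 1 / ((n : ℝ) + 1) := by positivity
      refine ⟨NN D a j (1 / ((n : ℝ) + 1)) γ, (isOpen_NN _ _ _ hk0 _ hγ).mem_nhds
        (pt_mem_NN.2 ⟨rfl, Or.inl ⟨rfl, Or.inl rfl⟩⟩), ?_⟩
      rintro y ⟨a', b', rfl, h⟩ h2
      rw [pt_mem_CC] at h2
      rw [pt.injEq]
      rcases h with ⟨rfl, rfl | h3⟩ | ⟨rfl, h3⟩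
      · exact ⟨rfl, rfl, rfl⟩
      · rcases h2.2 with rfl | h4
        · exact ⟨rfl, rfl, rfl⟩
        · exact absurd h3.1 (not_lt.2 h4)
      · rcases h2.2 with rfl | h4
        · exact ⟨rfl, rfl, rfl⟩
        · exact absurd h3 (not_lt.2 h4)
    · exact ⟨{pt a b j}, (isOpen_single j hab).mem_nhds rfl, fun y hy _ => hy⟩

theorem sigmaSpace : IsSigmaSpace (Pt D) := by
  refine ⟨inferInstance, fun n => {s | ∃ x ∈ CC D n, s = {x}}, fun n x => ?_, ?_⟩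
  · obtain ⟨t, ht, h⟩ := CC_discrete n x
    refine ⟨t, ht, Set.Subsingleton.finite ?_⟩
    rintro ⟨s, y, hy, rfl⟩ ⟨u, hu1, hu2⟩ ⟨s', y', hy', rfl⟩ ⟨u', hu1', hu2'⟩
    rw [Subtype.mk.injEq, h y (by rw [mem_singleton_iff] at hu1; rwa [← hu1]) hy,
      h y' (by rw [mem_singleton_iff] at hu1'; rwa [← hu1']) hy']
  · intro x U _ hx
    have : ∃ n, x ∈ CC D n := by
      cases x with
      | inf => exact ⟨0, Or.inl rfl⟩
      | pt a b j =>
        by_cases hab : a = b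
        · exact ⟨j, pt_mem_CC.2 ⟨le_rfl, Or.inl hab⟩⟩
        · obtain ⟨k, hk⟩ := exists_nat_one_div_lt (abs_pos.2 (sub_ne_zero.2 hab))
          refine ⟨max j k, pt_mem_CC.2 ⟨le_max_left _ _, Or.inr (le_trans ?_ hk.le)⟩⟩
          exact Nat.one_div_le_one_div (le_max_right _ _)
    obtain ⟨n, hn⟩ := this
    exact ⟨n, {x}, ⟨x, hn, rfl⟩, rfl, singleton_subset_iff.2 hx⟩

theorem cont_of {Y : Type*} [PseudoMetricSpace Y] (F : Pt D → Y)
    (h1 : ∀ ε > 0, ∃ n : ℕ, ∀ j, n ≤ j → ∀ a b, dist (F (pt a b j)) (F inf) < ε)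
    (h2 : ∀ j, Continuous (fun p : ℝ × ℝ => F (pt p.1 p.2 j))) : Continuous F := by
  refine continuous_def.2 (fun U hU => ?_)
  rw [isOpen_iff]
  refine ⟨fun h => ?_, fun z j h => ?_⟩
  · obtain ⟨ε, hε, hb⟩ := Metric.isOpen_iff.1 hU _ h
    obtain ⟨n, hn⟩ := h1 ε hε
    exact ⟨n, D.ρ 0, fun j hj a b _ => hb (hn j hj a b)⟩
  · obtain ⟨ε, hε, hb⟩ := Metric.isOpen_iff.1 hU _ h
    obtain ⟨γ, hγ⟩ := D.pos z
    obtain ⟨δ, hδ, hδ'⟩ := Metric.continuous_iff.1 (h2 j) (z, z) ε hε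
    refine ⟨δ, hδ, γ, hγ, fun b hb1 _ _ => hb (hδ' (z, b) ?_), fun a ha => hb (hδ' (a, z) ?_)⟩
    · rw [Prod.dist_eq, dist_self, max_eq_right dist_nonneg, Real.dist_eq, abs_sub_comm]
      exact hb1
    · rw [Prod.dist_eq, dist_self, max_eq_left dist_nonneg, Real.dist_eq]
      exact ha

/-- A continuous injection into `ℝ³`. -/
noncomputable def emb3 : Pt D → ℝ × ℝ × ℝ
  | inf => (0, 0, 0)
  | pt a b j => (Real.arctan a / ((j : ℝ) + 1), Real.arctan b / ((j : ℝ) + 1), 1 / ((j : ℝ) + 1))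

theorem emb3_inj : Function.Injective (emb3 (D := D)) := by
  intro x y h
  cases x with
  | inf =>
    cases y with
    | inf => rfl
    | pt a b j =>
      simp only [emb3, Prod.mk.injEq] at h
      have : (0 : ℝ) < 1 / ((j : ℝ) + 1) := by positivity
      linarith [h.2.2]
  | pt a b j =>
    cases y with
    | inf =>
      simp only [emb3, Prod.mk.injEq] at h
      have : (0 : ℝ) < 1 / ((j : ℝ) + 1) := by positivity
      linarith [h.2.2]
    | pt a' b' j' =>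
      simp only [emb3, Prod.mk.injEq] at h
      have hj0 : (0 : ℝ) < (j : ℝ) + 1 := by positivity
      have hj0' : (0 : ℝ) < (j' : ℝ) + 1 := by positivity
      have hj : j = j' := by
        have h3 := h.2.2
        rw [div_eq_div_iff hj0.ne' hj0'.ne'] at h3
        have : (j : ℝ) = j' := by linarith
        exact_mod_cast this
      subst hj
      rw [div_left_inj' hj0.ne', div_left_inj' hj0.ne'] at h
      rw [Real.arctan_injective h.1, Real.arctan_injective h.2.1]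

theorem emb3_cont : Continuous (emb3 (D := D)) := by
  refine cont_of _ ?_ ?_
  · intro ε hε
    obtain ⟨n, hn⟩ := exists_nat_gt (2 / ε)
    refine ⟨n, fun j hj a b => ?_⟩
    have hj0 : (0 : ℝ) < (j : ℝ) + 1 := by positivity
    have hjn : (n : ℝ) ≤ j := by exact_mod_cast hj
    have hpi : Real.pi / 2 < 2 := by linarith [Real.pi_lt_four]
    have h1 : 2 / ((j : ℝ) + 1) < ε := by
      rw [div_lt_iff₀ hj0]
      rw [div_lt_iff₀ hε] at hn
      nlinarith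
    have ha : ∀ t : ℝ, |Real.arctan t / ((j : ℝ) + 1)| < ε := by
      intro t
      rw [abs_div, abs_of_pos hj0]
      refine lt_trans ?_ h1
      refine div_lt_div_of_pos_right ?_ hj0
      rw [abs_lt]
      constructor <;> linarith [Real.arctan_lt_pi_div_two t, Real.neg_pi_div_two_lt_arctan t]
    have h2 : |1 / ((j : ℝ) + 1)| < ε := by
      rw [abs_of_pos (by positivity)]
      refine lt_trans (div_lt_div_of_pos_right (by norm_num) hj0) h1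
    simp only [emb3, Prod.dist_eq, Real.dist_eq, sub_zero]
    exact max_lt (ha a) (max_lt (ha b) h2)
  · intro j
    simp only [emb3]
    exact ((Real.continuous_arctan.comp continuous_fst).div_const _).prodMk
      (((Real.continuous_arctan.comp continuous_snd).div_const _).prodMk continuous_const)

end Pool.Agent.R583.SC
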